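import Pool.Agent.H65.LDV3.Stmts
import Pool.Agent.H65.LDV2.LDX

/-!
# LDV3: slack lemma and window assembly for `Alt3`
-/

set_option autoImplicit false

namespace Pool.LDV3

open Finset Pool.Agent.H98.ABCR Pool.SHA Pool.BL Pool.LDV Pool.LDV2 Pool.BL72 Pool.LDV.LDC65

namespace LDY65

theorem vbi_low {J : ℕ} {p : ℕ → ℝ} {g G V η : ℝ} (h : VBi J p G V) (h1 : g ≤ G)
    (h2 : G - η ≤ g) : VBi J p g (V - η) := by
  have h3 : VBi J p (g + (G - g)) V := by
    rw [show g + (G - g) = G by ring]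
    exact h
  exact vbi_mono (vbi_gain (sub_nonneg.2 h1) h3) (fun _ => le_rfl) le_rfl (by linarith)

theorem max_add (u g y : ℝ) (hy : 0 ≤ y) : max 0 (u - g) ≤ max 0 (u - (g + y)) + y := by
  refine max_le ?_ ?_
  · have := le_max_left 0 (u - (g + y))
    linarith
  · have := le_max_right 0 (u - (g + y))
    linarith

theorem min_add (u g y : ℝ) (hy : 0 ≤ y) : min u (g + y) ≤ min u g + y := by
  rcases le_total u g with h | h
  · rw [min_eq_left h]
    have := min_le_left u (g + y)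
    linarith
  · rw [min_eq_right h]
    exact min_le_right u (g + y)

/-- congruences -/
theorem altC (hC : S_CTL) (J : ℕ) {κ η : ℝ} (hκ : 1 ≤ κ) (η0 : 0 < η) :
    ∃ C : ℝ, 1 ≤ C ∧ ∀ (X m T : ℝ) (F : Finset (ℕ × ℕ)) (p : Fin 3 → ℕ → ℝ) (t : Fin 3 → ℝ)
      (a : Fin 3), 1 ≤ X → (∀ l e, 0 ≤ p l e ∧ p l e ≤ 2) → (∀ l, 0 ≤ t l) →
      (∀ l, t l + ∑ e ∈ Icc 1 J, (e : ℝ) * p l e ≤ κ) → Cla J κ X η m p t a F →
      (∃ (i j k : Fin 3) (K : Finset ℕ) (V W : ℝ), i ≠ j ∧ i ≠ k ∧ j ≠ k ∧ K ⊆ Icc 1 J ∧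
        VBi J (p j) (t i + ∑ e ∈ K, (e : ℝ) * p i e) V ∧
        VBi J (p k) (t i + ∑ e ∈ K, (e : ℝ) * p i e) W ∧
        ∑ e ∈ K, p i e + (∑ e ∈ Icc 1 J, p j e - V / 2) + (∑ e ∈ Icc 1 J, p k e - W / 2) ≤ T) →
      (F.card : ℝ) ≤ C * X ^ (T + 10 * η) := by
  obtain ⟨S, HS⟩ := tru_thm J κ η (by linarith) η0
  obtain ⟨C, c1, H⟩ := hC J S κ η hκ η0
  refine ⟨C, c1, fun X m T F p t a hX hp ht hGm hv
    ⟨i, j, k, K, V, W, hij, hik, hjk, hK, hV, hW, h⟩ => ?_⟩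
  have hp0 : ∀ l e, 0 ≤ p l e := fun l e => (hp l e).1
  obtain ⟨G, hG⟩ : ∃ G : ℝ, G = t i + ∑ e ∈ K, (e : ℝ) * p i e := ⟨_, rfl⟩
  have G0 : 0 ≤ G := hG ▸ add_nonneg (ht i) (Finset.sum_nonneg fun e _ =>
    mul_nonneg (Nat.cast_nonneg _) (hp0 i e))
  have G1 : G ≤ κ := by
    have h1 : ∑ e ∈ K, (e : ℝ) * p i e ≤ ∑ e ∈ Icc 1 J, (e : ℝ) * p i e :=
      Finset.sum_le_sum_of_subset_of_nonneg hK fun e _ _ => mul_nonneg (Nat.cast_nonneg _) (hp0 i e)
    have := hGm i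
    linarith
  rw [← hG] at hV hW
  obtain ⟨g, hg⟩ : ∃ g : ℝ, g = max 0 (G - η) := ⟨_, rfl⟩
  have g0 : 0 ≤ g := hg ▸ le_max_left _ _
  have gG : g ≤ G := hg ▸ max_le G0 (by linarith)
  have g1 : G - η ≤ g := hg ▸ le_max_right _ _
  have hj := HS (p j) g (V - η) (hp0 j) g0 (by linarith) (vbi_low hV gG g1)
  have hk := HS (p k) g (W - η) (hp0 k) g0 (by linarith) (vbi_low hW gG g1)
  refine (H X η g _ _ F i j k K p hX η0.le g0 hij hik hjk hK hp hj hk
      (fun v hv' => ⟨(hv v hv').1, (hv v hv').2.1, (hv v hv').2.2.1, ?_⟩)).trans ?_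
  · rw [hg, hG]
    exact (hv v hv').2.2.2.1 i K hK
  · refine mul_le_mul_of_nonneg_left (Real.rpow_le_rpow_of_exponent_le hX ?_) (by linarith)
    linarith

/-- codegrees -/
theorem altK (hKS : S_KST) (J : ℕ) {κ η : ℝ} (hκ : 1 ≤ κ) (η0 : 0 < η) :
    ∃ C : ℝ, 1 ≤ C ∧ ∀ (X m T : ℝ) (F : Finset (ℕ × ℕ)) (p : Fin 3 → ℕ → ℝ) (t : Fin 3 → ℝ)
      (a : Fin 3), 1 ≤ X → (∀ l e, 0 ≤ p l e ∧ p l e ≤ 2) → (∀ l, 0 ≤ t l) →
      (∀ l, t l + ∑ e ∈ Icc 1 J, (e : ℝ) * p l e ≤ κ) → Cla J κ X η m p t a F →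
      (∃ (i j k : Fin 3) (E K : Finset ℕ) (d : ℕ) (V : ℝ), i ≠ j ∧ i ≠ k ∧ j ≠ k ∧ 2 ≤ d ∧
        d ≤ J ∧ E ⊆ Icc 1 J ∧ K ⊆ Icc 1 J ∧ Disjoint E K ∧ (∀ e ∈ E, d ∣ e) ∧
        VBi J (p j) (t i + ∑ e ∈ K, (e : ℝ) * p i e) V ∧
        ∑ e ∈ K, p i e + ∑ e ∈ Icc 1 J, p k e ≤ T ∧
        (∑ e ∈ Icc 1 J, p i e - ∑ e ∈ E, p i e) + (∑ e ∈ Icc 1 J, p j e - V / 2) +
          (∑ e ∈ Icc 1 J, p k e) / 2 ≤ T) →
      (F.card : ℝ) ≤ C * X ^ (T + 10 * η) := by
  obtain ⟨S, HS⟩ := tru_thm J κ η (by linarith) η0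
  obtain ⟨C, c1, H⟩ := hKS J S κ η hκ η0
  refine ⟨2 * C, by linarith, fun X m T F p t a hX hp ht hGm hv
    ⟨i, j, k, E, K, d, V, hij, hik, hjk, hd, hdJ, hE, hK, hEK, hdE, hV, h1, h2⟩ => ?_⟩
  have hp0 : ∀ l e, 0 ≤ p l e := fun l e => (hp l e).1
  obtain ⟨G, hG⟩ : ∃ G : ℝ, G = t i + ∑ e ∈ K, (e : ℝ) * p i e := ⟨_, rfl⟩
  have G0 : 0 ≤ G := hG ▸ add_nonneg (ht i) (Finset.sum_nonneg fun e _ =>
    mul_nonneg (Nat.cast_nonneg _) (hp0 i e))
  have G1 : G ≤ κ := by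
    have h1 : ∑ e ∈ K, (e : ℝ) * p i e ≤ ∑ e ∈ Icc 1 J, (e : ℝ) * p i e :=
      Finset.sum_le_sum_of_subset_of_nonneg hK fun e _ _ => mul_nonneg (Nat.cast_nonneg _) (hp0 i e)
    have := hGm i
    linarith
  rw [← hG] at hV
  obtain ⟨g, hg⟩ : ∃ g : ℝ, g = max 0 (G - η) := ⟨_, rfl⟩
  have g0 : 0 ≤ g := hg ▸ le_max_left _ _
  have gG : g ≤ G := hg ▸ max_le G0 (by linarith)
  have g1 : G - η ≤ g := hg ▸ le_max_right _ _
  have hj := HS (p j) g (V - η) (hp0 j) g0 (by linarith) (vbi_low hV gG g1)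
  refine (H X η g _ F i j k E K d p hX η0.le g0 hij hik hjk hd hdJ hE hK hEK hdE hp hj
      (fun v hv' => ⟨(hv v hv').1, (hv v hv').2.1, (hv v hv').2.2.1, ?_⟩)).trans ?_
  · rw [hg, hG]
    exact (hv v hv').2.2.2.1 i K hK
  · have s1 : X ^ (η + 5 * η + ∑ e ∈ K, p i e + ∑ e ∈ Icc 1 J, p k e) ≤ X ^ (T + 10 * η) :=
      Real.rpow_le_rpow_of_exponent_le hX (by linarith)
    have s2 := Real.rpow_le_rpow_of_exponent_le hX (show η + 5 * η +
      (∑ e ∈ Icc 1 J, p i e - ∑ e ∈ E, p i e) + (∑ e ∈ Icc 1 J, p j e - (V - η - η) / 2) +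
      (∑ e ∈ Icc 1 J, p k e) / 2 ≤ T + 10 * η by linarith)
    calc _ ≤ C * (X ^ (T + 10 * η) + X ^ (T + 10 * η)) :=
          mul_le_mul_of_nonneg_left (add_le_add s1 s2) (by linarith)
      _ = _ := by ring

/-- choice lemma with slack -/
theorem chv3 (hU : S_CHU) {T' : ℝ} (hT1' : 6 / 11 ≤ T') (hT2' : T' ≤ 3 / 5) (hC : CHT3 T')
    (J : ℕ) (κ m η : ℝ) (p : Fin 3 → ℕ → ℝ) (t : Fin 3 → ℝ) (a : Fin 3)
    (hJ : 5 ≤ J) (hκ : 1 ≤ κ) (hm : 1 / 3 ≤ m) (hmκ : m ≤ κ) (hη : 0 ≤ η) (hη' : η ≤ 1 / 100)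
    (hp : ∀ l e, 0 ≤ p l e) (ht : ∀ l, 0 ≤ t l) (hsum : ∑ l, ∑ e ∈ Icc 1 J, p l e ≤ 1 + η)
    (hG : ∀ i, i ≠ a → m - η ≤ t i + ∑ e ∈ Icc 1 J, (e : ℝ) * p i e ∧
      t i + ∑ e ∈ Icc 1 J, (e : ℝ) * p i e ≤ m + η)
    (hGa : t a + ∑ e ∈ Icc 1 J, (e : ℝ) * p a e ≤ m + η) :
    Alt3 J (max (1 - m) T' + 20 * (κ + 1) * η) m p t a := by
  obtain ⟨r, hr⟩ : ∃ r : ℝ, r = (1 + η)⁻¹ := ⟨_, rfl⟩
  have h1η : (0 : ℝ) < 1 + η := by linarith
  have hr0 : 0 ≤ r := by rw [hr]; positivity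
  have hr1 : (1 + η) * r = 1 := by rw [hr]; exact mul_inv_cancel₀ h1η.ne'
  have hrle : r ≤ 1 := by
    have : r * 1 ≤ (1 + η) * r := by nlinarith
    linarith
  obtain ⟨m', hm'⟩ : ∃ m' : ℝ, m' = max m (r * (m + η)) := ⟨_, rfl⟩
  have hmm : m ≤ m' := by rw [hm']; exact le_max_left _ _
  have hm1 : r * (m + η) ≤ m' := by rw [hm']; exact le_max_right _ _
  have hm2 : m' ≤ m + η := by
    rw [hm']
    refine max_le (by linarith) ?_
    calc r * (m + η) ≤ 1 * (m + η) := mul_le_mul_of_nonneg_right hrle (by linarith)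
      _ = m + η := one_mul _
  have hm3 : m + η ≤ (1 + η) * m' := by
    have h3 := mul_le_mul_of_nonneg_left hm1 h1η.le
    rw [← mul_assoc, hr1, one_mul] at h3
    exact h3
  obtain ⟨w, hw⟩ : ∃ w : ℝ, w = (1 + η) * m' - m := ⟨_, rfl⟩
  have hw0 : 0 ≤ w := by linarith
  have hw1 : w ≤ (κ + 2) * η := by
    have h4 : (1 + η) * m' ≤ (1 + η) * (m + η) := mul_le_mul_of_nonneg_left hm2 h1η.le
    have h5 : η * m ≤ η * κ := mul_le_mul_of_nonneg_left hmκ hη
    have h6 : η * η ≤ η * 1 := mul_le_mul_of_nonneg_left (by linarith) hη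
    rw [hw]
    nlinarith
  obtain ⟨z, hz⟩ : ∃ z : Fin 3 → ℝ, z = fun i => if i = a then 0 else
    (1 + η) * m' - (t i + ∑ e ∈ Icc 1 J, (e : ℝ) * p i e) := ⟨_, rfl⟩
  have hza : z a = 0 := by rw [hz]; simp
  have hzi : ∀ i, i ≠ a → z i = (1 + η) * m' - (t i + ∑ e ∈ Icc 1 J, (e : ℝ) * p i e) := by
    intro i hi
    rw [hz]
    simp [hi]
  have hz0 : ∀ i, 0 ≤ z i := by
    intro i
    by_cases hi : i = a
    · rw [hi, hza]
    · rw [hzi i hi]
      have := (hG i hi).2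
      linarith
  have hz1 : ∀ i, z i ≤ (κ + 3) * η := by
    intro i
    by_cases hi : i = a
    · rw [hi, hza]
      positivity
    · rw [hzi i hi]
      have := (hG i hi).1
      nlinarith
  have hS : ∀ (K : Finset ℕ) (l : Fin 3), ∑ e ∈ K, r * p l e = r * ∑ e ∈ K, p l e :=
    fun K l => (Finset.mul_sum _ _ _).symm
  have hGs : ∀ (K : Finset ℕ) (l : Fin 3), ∑ e ∈ K, (e : ℝ) * (r * p l e) =
      r * ∑ e ∈ K, (e : ℝ) * p l e := by
    intro K l
    rw [Finset.mul_sum]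
    exact Finset.sum_congr rfl fun e _ => by ring
  obtain ⟨T, hT⟩ : ∃ T : ℝ, T = max (1 - m) T' := ⟨_, rfl⟩
  have hT1 : 1 - m ≤ T := by rw [hT]; exact le_max_left _ _
  have hT2 : T' ≤ T := by rw [hT]; exact le_max_right _ _
  have hT3 : T ≤ 2 / 3 := by rw [hT]; exact max_le (by linarith) (by linarith)
  have hp' : ∀ l e, 0 ≤ r * p l e := fun l e => mul_nonneg hr0 (hp l e)
  have ht' : ∀ l, 0 ≤ r * (t l + z l) := fun l => mul_nonneg hr0 (add_nonneg (ht l) (hz0 l))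
  have hsum' : ∑ l, ∑ e ∈ Icc 1 J, r * p l e ≤ 1 := by
    calc ∑ l, ∑ e ∈ Icc 1 J, r * p l e = r * ∑ l, ∑ e ∈ Icc 1 J, p l e := by
          rw [Finset.mul_sum]
          exact Finset.sum_congr rfl fun l _ => (Finset.mul_sum _ _ _).symm
      _ ≤ r * (1 + η) := mul_le_mul_of_nonneg_left hsum hr0
      _ = 1 := by rw [mul_comm]; exact hr1
  have hG' : ∀ i, i ≠ a → r * (t i + z i) + ∑ e ∈ Icc 1 J, (e : ℝ) * (r * p i e) = m' := by
    intro i hi
    rw [hGs, hzi i hi]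
    calc r * (t i + ((1 + η) * m' - (t i + ∑ e ∈ Icc 1 J, (e : ℝ) * p i e))) +
          r * ∑ e ∈ Icc 1 J, (e : ℝ) * p i e = (1 + η) * r * m' := by ring
      _ = m' := by rw [hr1, one_mul]
  have hGa' : r * (t a + z a) + ∑ e ∈ Icc 1 J, (e : ℝ) * (r * p a e) ≤ m' := by
    rw [hGs, hza, add_zero, ← mul_add]
    exact (mul_le_mul_of_nonneg_left hGa hr0).trans hm1
  have key : Alt3 J T m' (fun l e => r * p l e) (fun l => r * (t l + z l)) a := by
    rcases le_total m' (1 - T') with h | h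
    · refine alt3_mono (T := 1 - m') (by linarith) (alt3_of_alt2 hp' ht' ?_)
      exact hU J m' (fun l e => r * p l e) (fun l => r * (t l + z l)) a hJ (by linarith)
        (by linarith) hp' ht' hsum' hG' hGa'
    · rcases le_total m' T' with h' | h'
      · refine alt3_mono (T := max m' (1 - m')) ?_ (alt3_of_alt2 hp' ht' ?_)
        · exact (max_le h' (by linarith)).trans hT2
        · exact kane J m' (fun l e => r * p l e) (fun l => r * (t l + z l)) a hJ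
            hp' ht' hsum' hG' hGa'
      · exact alt3_mono hT2 (hC J m' (fun l e => r * p l e) (fun l => r * (t l + z l)) a hJ h'
          hp' ht' hsum' hG' hGa')
  rw [← hT]
  have hmul : ∀ A : ℝ, r * A ≤ T → A ≤ T + 2 / 3 * η := by
    intro A hA
    have h3 := mul_le_mul_of_nonneg_left hA h1η.le
    rw [← mul_assoc, hr1, one_mul] at h3
    have h4 : η * T ≤ η * (2 / 3) := mul_le_mul_of_nonneg_left hT3 hη
    linarith
  have hκη : η ≤ κ * η := by
    have := mul_le_mul_of_nonneg_right hκ hη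
    linarith
  have hVB : ∀ (i l : Fin 3) (K : Finset ℕ) (V : ℝ), VBi J (fun e => r * p l e)
      (r * (t i + z i) + ∑ e ∈ K, (e : ℝ) * (r * p i e)) V →
      VBi J (p l) (t i + ∑ e ∈ K, (e : ℝ) * p i e) ((1 + η) * V - z i) := by
    intro i l K V h
    apply vbi_gain (hz0 i)
    have h3 := vbi_smul h1η.le h
    have e1 : (fun e => (1 + η) * (r * p l e)) = p l := by
      funext e
      rw [← mul_assoc, hr1, one_mul]
    have e2 : (1 + η) * (r * (t i + z i) + ∑ e ∈ K, (e : ℝ) * (r * p i e)) =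
        t i + ∑ e ∈ K, (e : ℝ) * p i e + z i := by
      rw [hGs, ← mul_add, ← mul_assoc, hr1, one_mul]
      ring
    rw [e2] at h3
    have h4 : VBi J (fun e => (1 + η) * (r * p l e))
      (t i + ∑ e ∈ K, (e : ℝ) * p i e + z i) ((1 + η) * V) := h3
    rw [e1] at h4
    exact h4
  rcases key with ⟨j, k, hjk, hle⟩ | ⟨i, j, k, e, f, g1, g2, g3, g4, g5, hle⟩ |
    ⟨i, j, k, K, V, W, g1, g2, g3, g4, g5, g6, hle⟩ | ⟨i, j, k, K, e, g1, g2, g3, g4, g5, hle⟩ |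
    ⟨k, l, e, g1, g2, g3, g4, hle⟩ |
    ⟨i, j, k, E, K, d, V, g1, g2, g3, g4, g5, g6, g7, g8, g9, g10, hl1, hl2⟩ | hle
  · left
    refine ⟨j, k, hjk, ?_⟩
    simp only [hS] at hle
    have := hmul _ (by rw [mul_add]; exact hle)
    linarith
  · right; left
    refine ⟨i, j, k, e, f, g1, g2, g3, g4, g5, ?_⟩
    simp only [hS] at hle
    have := hmul ((∑ e ∈ Icc 1 J, p i e) / 2 +
      (∑ e ∈ Icc 1 J, p j e - p j e / 2) + (∑ e ∈ Icc 1 J, p k e - p k f / 2)) (by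
        refine le_trans (le_of_eq ?_) hle
        ring)
    linarith
  · right; right; left
    refine ⟨i, j, k, K, _, _, g1, g2, g3, g4, hVB i j K V g5, hVB i k K W g6, ?_⟩
    simp only [hS] at hle
    have h3 := mul_le_mul_of_nonneg_left hle h1η.le
    have h4 : (1 + η) * (r * ∑ e ∈ K, p i e + (r * ∑ e ∈ Icc 1 J, p j e - V / 2) +
        (r * ∑ e ∈ Icc 1 J, p k e - W / 2)) = ∑ e ∈ K, p i e +
        (∑ e ∈ Icc 1 J, p j e - (1 + η) * V / 2) + (∑ e ∈ Icc 1 J, p k e - (1 + η) * W / 2) := by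
      have h5 : ∀ A : ℝ, (1 + η) * (r * A) = A := fun A => by rw [← mul_assoc, hr1, one_mul]
      have h6 := h5 (∑ e ∈ K, p i e)
      have h7 := h5 (∑ e ∈ Icc 1 J, p j e)
      have h8 := h5 (∑ e ∈ Icc 1 J, p k e)
      linear_combination h6 + h7 + h8
    rw [h4] at h3
    have h7 := hz1 i
    have h8 : η * T ≤ η * (2 / 3) := mul_le_mul_of_nonneg_left hT3 hη
    linarith
  · right; right; right; left
    refine ⟨i, j, k, K, e, g1, g2, g3, g4, g5, ?_⟩
    simp only [hS, hGs] at hle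
    have hg : r * p j e + r * p k e - (r * (t i + z i) + r * ∑ n ∈ K, (n : ℝ) * p i n) =
        r * (p j e + p k e - ((t i + ∑ n ∈ K, (n : ℝ) * p i n) + z i)) := by ring
    have hmx : ∀ u : ℝ, max 0 (r * u) = r * max 0 u := by
      intro u
      rw [mul_max_of_nonneg _ _ hr0, mul_zero]
    rw [hg, hmx] at hle
    have h4 := hmul (∑ n ∈ K, p i n + (∑ n ∈ Icc 1 J, p j n - p j e) +
      (∑ n ∈ Icc 1 J, p k n - p k e) +
      max 0 (p j e + p k e - ((t i + ∑ n ∈ K, (n : ℝ) * p i n) + z i))) (by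
        refine le_trans (le_of_eq ?_) hle
        ring)
    have h5 := max_add (p j e + p k e) (t i + ∑ n ∈ K, (n : ℝ) * p i n) (z i) (hz0 i)
    have h7 := hz1 i
    linarith
  · right; right; right; right; left
    refine ⟨k, l, e, g1, g2, g3, g4, ?_⟩
    simp only [hS, hGs] at hle
    rw [hza, add_zero] at hle
    have hg : m' - (r * t a + r * ∑ n ∈ Icc 1 J, (n : ℝ) * p a n) =
        r * ((m - (t a + ∑ n ∈ Icc 1 J, (n : ℝ) * p a n)) + w) := by
      have h8 : r * w = m' - r * m := by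
        rw [hw]
        calc r * ((1 + η) * m' - m) = (1 + η) * r * m' - r * m := by ring
          _ = m' - r * m := by rw [hr1, one_mul]
      rw [mul_add, h8]
      ring
    have hmn : ∀ u v : ℝ, min (r * u) (r * v) = r * min u v := by
      intro u v
      rw [mul_min_of_nonneg _ _ hr0]
    rw [hg, hmn] at hle
    have h4 := hmul (∑ n ∈ Icc 1 J, p k n + ∑ n ∈ Icc 1 J, p l n -
      min (p l e) ((m - (t a + ∑ n ∈ Icc 1 J, (n : ℝ) * p a n)) + w)) (by
        refine le_trans (le_of_eq ?_) hle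
        ring)
    have h5 := min_add (p l e) (m - (t a + ∑ n ∈ Icc 1 J, (n : ℝ) * p a n)) w hw0
    linarith
  · right; right; right; right; right; left
    refine ⟨i, j, k, E, K, d, _, g1, g2, g3, g4, g5, g6, g7, g8, g9, hVB i j K V g10, ?_, ?_⟩
    · simp only [hS] at hl1
      have := hmul (∑ e ∈ K, p i e + ∑ e ∈ Icc 1 J, p k e) (by rw [mul_add]; exact hl1)
      linarith
    · simp only [hS] at hl2
      have h3 := mul_le_mul_of_nonneg_left hl2 h1η.le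
      have h4 : (1 + η) * (r * ∑ e ∈ Icc 1 J, p i e - r * ∑ e ∈ E, p i e +
          (r * ∑ e ∈ Icc 1 J, p j e - V / 2) + r * (∑ e ∈ Icc 1 J, p k e) / 2) =
          ∑ e ∈ Icc 1 J, p i e - ∑ e ∈ E, p i e +
          (∑ e ∈ Icc 1 J, p j e - (1 + η) * V / 2) + (∑ e ∈ Icc 1 J, p k e) / 2 := by
        have h5 : ∀ A : ℝ, (1 + η) * (r * A) = A := fun A => by rw [← mul_assoc, hr1, one_mul]
        have h6 := h5 (∑ e ∈ Icc 1 J, p i e)
        have h6' := h5 (∑ e ∈ E, p i e)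
        have h7 := h5 (∑ e ∈ Icc 1 J, p j e)
        have h8 := h5 (∑ e ∈ Icc 1 J, p k e)
        linear_combination h6 - h6' + h7 + h8 / 2
      rw [h4] at h3
      have h7 := hz1 i
      have h8 : η * T ≤ η * (2 / 3) := mul_le_mul_of_nonneg_left hT3 hη
      linarith
  · right; right; right; right; right; right
    have h8 : r * w = m' - r * m := by
      rw [hw]
      calc r * ((1 + η) * m' - m) = (1 + η) * r * m' - r * m := by ring
        _ = m' - r * m := by rw [hr1, one_mul]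
    have h9 : r * p 0 2 + r * p 1 2 + r * p 2 2 - m' = r * (p 0 2 + p 1 2 + p 2 2 - (m + w)) := by
      have : r * (m + w) = m' := by rw [mul_add, h8]; ring
      rw [mul_sub, this]
      ring
    have hmx : ∀ u : ℝ, max 0 (r * u) = r * max 0 u := by
      intro u
      rw [mul_max_of_nonneg _ _ hr0, mul_zero]
    simp only [hS] at hle
    rw [h9, hmx] at hle
    have h4 := hmul ((∑ l, (∑ e ∈ Icc 1 J, p l e - p l 2)) +
      max 0 (p 0 2 + p 1 2 + p 2 2 - (m + w))) (by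
        refine le_trans (le_of_eq ?_) hle
        rw [mul_add, Finset.mul_sum]
        congr 1
        exact Finset.sum_congr rfl fun l _ => by ring)
    have h5 := max_add (p 0 2 + p 1 2 + p 2 2) m w hw0
    linarith

end LDY65

/-- a tree for `CHT3 T` gives the bound in windows -/
theorem ldy_thm (hL : S_LAY) (hT : S_TTL) (hF : S_FTL) (hC : S_CTL) (hLT : S_LTL)
    (hRT : S_RTL) (hKS : S_KST) (hCO : S_CON) (hU : S_CHU) :
    ∀ T : ℝ, 6 / 11 ≤ T → T ≤ 3 / 5 → CHT3 T → WB T := by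
  classical
  intro T' hT1 hT2 hCHT κ0 ε hκ0 hε
  obtain ⟨η, hη⟩ : ∃ η : ℝ, η = min (ε / (200 * (κ0 + 1))) (1 / 100) := ⟨_, rfl⟩
  have η0 : 0 < η := by rw [hη]; exact lt_min (by positivity) (by norm_num)
  have η1 : η ≤ 1 / 100 := hη ▸ min_le_right _ _
  have η2 : η * (200 * (κ0 + 1)) ≤ ε := by
    rw [← le_div_iff₀ (by positivity)]
    exact hη ▸ min_le_left _ _
  obtain ⟨κ, hκd⟩ : ∃ κ : ℝ, κ = κ0 + 1 := ⟨_, rfl⟩
  have hκ : 1 ≤ κ := by linarith
  obtain ⟨J, hJ⟩ : ∃ J : ℕ, J = ⌈κ / η⌉₊ + 5 := ⟨_, rfl⟩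
  have J5 : 5 ≤ J := by omega
  have JR : (5 : ℝ) ≤ J := by exact_mod_cast J5
  have Jκ : κ ≤ η * (J + 1) := by
    have h1 : κ / η ≤ J := by
      rw [hJ]
      push_cast
      have := Nat.le_ceil (κ / η)
      linarith
    rw [div_le_iff₀ η0] at h1
    nlinarith
  obtain ⟨δ, hδ⟩ : ∃ δ : ℝ, δ = η / (4 * (J : ℝ) ^ 2) := ⟨_, rfl⟩
  have δ0 : 0 < δ := by rw [hδ]; positivity
  have δJ : δ * (J : ℝ) ^ 2 = η / 4 := by
    rw [hδ]
    field_simp
  have δJ1 : 3 * J * δ ≤ η := by nlinarith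
  have δ1 : δ ≤ η / 4 := by nlinarith
  obtain ⟨C1, c1, H1⟩ := altT hL hT J hκ η0
  obtain ⟨C2, c2, H2⟩ := altF hF J hκ η0
  obtain ⟨C3, c3, H3⟩ := LDY65.altC hC J hκ η0
  obtain ⟨C4, c4, H4⟩ := altL hLT J hκ η0
  obtain ⟨C5, c5, H5⟩ := altR hRT J hκ η0
  obtain ⟨C6, c6, H6⟩ := LDY65.altK hKS J hκ η0
  obtain ⟨C7, c7, H7⟩ := LDX65.altCO hCO J (by omega) hκ η0
  obtain ⟨D, hD⟩ : ∃ D : ℝ, D = C1 + C2 + C3 + C4 + C5 + C6 + C7 := ⟨_, rfl⟩
  have D1 : 1 ≤ D := by linarith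
  obtain ⟨X0, hX0⟩ : ∃ X0 : ℝ, X0 = (4 : ℝ) ^ (4 / η) := ⟨_, rfl⟩
  obtain ⟨M, hM⟩ : ∃ M : ℕ, M = ⌈(κ + 1) / δ⌉₊ := ⟨_, rfl⟩
  have X01 : 1 < X0 := by rw [hX0]; exact Real.one_lt_rpow (by norm_num) (by positivity)
  obtain ⟨N, hN⟩ : ∃ N : ℕ, N = Fintype.card (Fin 3 × Fin (J + 1)) := ⟨_, rfl⟩
  have CM : 1 ≤ ((M : ℝ) + 1) ^ N := one_le_pow₀ (by have := Nat.cast_nonneg (α := ℝ) M; linarith)
  refine ⟨η / 4, ((M : ℝ) + 1) ^ N * D + ((⌊X0 ^ κ⌋₊ : ℝ) + 1) ^ 2, by positivity, ?_, ?_⟩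
  · have h1 : 1 ≤ ((M : ℝ) + 1) ^ N * D := by nlinarith
    have h2 : 0 ≤ ((⌊X0 ^ κ⌋₊ : ℝ) + 1) ^ 2 := by positivity
    linarith
  intro X m F a hX hm1 hm2 ha2 hv0
  have Xp : 0 < X := by linarith
  have hlX : 0 ≤ Real.log X := Real.log_nonneg hX
  obtain ⟨T, hTd⟩ : ∃ T : ℝ, T = max (1 - m) T' := ⟨_, rfl⟩
  have T0 : T' ≤ T := hTd ▸ le_max_right _ _
  rw [← hTd]
  have hv : ∀ v ∈ F, IsTri v ∧ (RR v : ℝ) ≤ X ∧ hh v ≤ κ * Real.log X := fun v hv' =>
    ⟨(hv0 v hv').1, (hv0 v hv').2.1, (hv0 v hv').2.2.2.1.trans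
      (mul_le_mul_of_nonneg_right (by linarith) hlX)⟩
  have hXε : 1 ≤ X ^ (T + ε) := Real.one_le_rpow hX (by linarith)
  have hc : ∀ v ∈ F, ((v.1 + v.2 : ℕ) : ℝ) ≤ X ^ κ := fun v hv' =>
    coord_le_rpow (hv v hv').1 hX (hv v hv').2.2
  rcases lt_or_ge X X0 with hlt | hge
  · -- small `X`
    have h1 : (F.card : ℝ) ≤ ((⌊X0 ^ κ⌋₊ : ℝ) + 1) ^ 2 := by
      apply small_card
      intro v hv'
      exact (hc v hv').trans (Real.rpow_le_rpow Xp.le hlt.le (by linarith))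
    have h2 : 0 ≤ ((M : ℝ) + 1) ^ N * D := mul_nonneg (by positivity) (by linarith)
    calc (F.card : ℝ) ≤ (((M : ℝ) + 1) ^ N * D + ((⌊X0 ^ κ⌋₊ : ℝ) + 1) ^ 2) * 1 := by
          linarith
      _ ≤ _ := by gcongr
  -- large `X`
  have X1 : 1 < X := by linarith
  have hlXp : 0 < Real.log X := Real.log_pos X1
  have hl2 : Real.logb X 2 ≤ η / 4 := by
    rw [Real.logb_le_iff_le_rpow X1 (by norm_num)]
    calc (2 : ℝ) ≤ 4 := by norm_num
      _ = X0 ^ (η / 4) := by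
          rw [hX0, ← Real.rpow_mul (by norm_num)]
          rw [show 4 / η * (η / 4) = 1 by field_simp, Real.rpow_one]
      _ ≤ X ^ (η / 4) := Real.rpow_le_rpow (by linarith) hge (by positivity)
  have laypos : ∀ v ∈ F, ∀ l e, (0 : ℝ) < lay (coord v l) e := fun v hv' l e => by
    exact_mod_cast ((hL J (coord v l) (coord_pos (hv v hv').1 l)).2.2.2.2 e).1
  have tppos : ∀ (v : ℕ × ℕ) (l : Fin 3), (0 : ℝ) < tp J (coord v l) := fun v l => by
    exact_mod_cast tp_pos J (coord v l)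
  have cpos : ∀ v ∈ F, ∀ l, (0 : ℝ) < coord v l := fun v hv' l => by
    exact_mod_cast coord_pos (hv v hv').1 l
  have lay0 : ∀ v ∈ F, ∀ l e, 0 ≤ Real.logb X (lay (coord v l) e) := fun v hv' l e =>
    Real.logb_nonneg X1 (by have := laypos v hv' l e; exact_mod_cast this)
  have tp0 : ∀ (v : ℕ × ℕ) (l : Fin 3), 0 ≤ Real.logb X (tp J (coord v l)) := fun v l =>
    Real.logb_nonneg X1 (by exact_mod_cast tp_pos J (coord v l))
  -- sum of the logarithms of the layers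
  have hsum : ∀ v ∈ F, ∑ l, ∑ e ∈ Icc 1 J, Real.logb X (lay (coord v l) e) ≤ 1 := by
    intro v hv'
    have h1 : ∏ l, ∏ e ∈ Icc 1 J, (lay (coord v l) e : ℝ) ≤ X := by
      refine le_trans ?_ (hv v hv').2.1
      rw [RR_prod (hv v hv').1]
      push_cast
      refine Finset.prod_le_prod (fun _ _ => by positivity) fun l _ => ?_
      rw [(hL J (coord v l) (coord_pos (hv v hv').1 l)).2.2.1]
      push_cast
      refine le_mul_of_one_le_left (by positivity) ?_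
      exact_mod_cast rad_pos _
    have h2 : Real.logb X (∏ l, ∏ e ∈ Icc 1 J, (lay (coord v l) e : ℝ)) ≤ 1 := by
      rw [Real.logb_le_iff_le_rpow X1 (Finset.prod_pos fun l _ => Finset.prod_pos fun e _ =>
        laypos v hv' l e), Real.rpow_one]
      exact h1
    rw [Real.logb_prod _ _ fun l _ => (Finset.prod_pos fun e _ => laypos v hv' l e).ne'] at h2
    refine le_trans (le_of_eq (Finset.sum_congr rfl fun l _ => ?_)) h2
    rw [Real.logb_prod _ _ fun e _ => (laypos v hv' l e).ne']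
  have hlay1 : ∀ v ∈ F, ∀ l, ∀ e ∈ Icc 1 J, Real.logb X (lay (coord v l) e) ≤ 1 := by
    intro v hv' l e he
    refine le_trans ?_ (hsum v hv')
    refine le_trans ?_ (Finset.single_le_sum (f := fun l => ∑ e ∈ Icc 1 J,
      Real.logb X (lay (coord v l) e)) (fun l _ => Finset.sum_nonneg fun e _ => lay0 v hv' l e)
      (Finset.mem_univ l))
    exact Finset.single_le_sum (f := fun e => Real.logb X (lay (coord v l) e))
      (fun e _ => lay0 v hv' l e) he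
  -- logarithm of `kp`
  have hkp : ∀ v ∈ F, ∀ (l : Fin 3) (K : Finset ℕ), Real.logb X (kp J K (coord v l)) =
      Real.logb X (tp J (coord v l)) + ∑ e ∈ K, (e : ℝ) * Real.logb X (lay (coord v l) e) := by
    intro v hv' l K
    unfold kp
    push_cast
    rw [Real.logb_mul (tppos v l).ne'
      (Finset.prod_pos fun e _ => pow_pos (laypos v hv' l e) _).ne',
      Real.logb_prod _ _ fun e _ => (pow_pos (laypos v hv' l e) _).ne']
    congr 1
    exact Finset.sum_congr rfl fun e _ => by rw [Real.logb_pow]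
  have hcl : ∀ v ∈ F, ∀ l, Real.logb X (coord v l) =
      Real.logb X (tp J (coord v l)) + ∑ e ∈ Icc 1 J, (e : ℝ) * Real.logb X (lay (coord v l) e) := by
    intro v hv' l
    have h1 := hkp v hv' l (Icc 1 J)
    rwa [(hL J (coord v l) (coord_pos (hv v hv').1 l)).1] at h1
  -- the height
  have hup : ∀ v ∈ F, ∀ l, Real.logb X (coord v l) ≤ m + η / 4 := by
    intro v hv' l
    have h1 : Real.log (coord v l) ≤ hh v := by
      unfold hh
      exact Real.log_le_log (cpos v hv' l) (by exact_mod_cast coord_le v l)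
    unfold Real.logb
    rw [div_le_iff₀ hlXp]
    exact h1.trans (hv0 v hv').2.2.2.1
  have hlo : ∀ v ∈ F, ∀ l, a ≠ l → m - η / 4 ≤ Real.logb X (coord v l) := by
    intro v hv' l hal
    have h0 : v.1 + v.2 ≤ 2 * coord v l := by
      have h2 := (hv0 v hv').2.2.2.2 l
      clear * - h2 hal ha2
      fin_cases a <;> fin_cases l <;> first
        | exact absurd rfl hal
        | exact absurd rfl ha2
        | (simp only [coord] at h2 ⊢; simp at h2 ⊢; omega)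
    have h1 : hh v ≤ Real.log (2 * (coord v l : ℝ)) := by
      unfold hh
      refine Real.log_le_log ?_ (by exact_mod_cast h0)
      exact_mod_cast coord_pos (hv v hv').1 2
    have h2 : m * Real.log X ≤ Real.log (2 * (coord v l : ℝ)) := (hv0 v hv').2.2.1.trans h1
    have h3 : m ≤ Real.logb X (2 * (coord v l : ℝ)) := by
      unfold Real.logb
      rwa [le_div_iff₀ hlXp]
    rw [Real.logb_mul (by norm_num) (cpos v hv' l).ne'] at h3
    linarith
  have hmk : m + η / 4 ≤ κ := by linarith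
  have htp1 : ∀ v ∈ F, ∀ l, Real.logb X (tp J (coord v l)) ≤ κ := by
    intro v hv' l
    have h1 := hcl v hv' l
    have h2 : 0 ≤ ∑ e ∈ Icc 1 J, (e : ℝ) * Real.logb X (lay (coord v l) e) :=
      Finset.sum_nonneg fun e _ => mul_nonneg (Nat.cast_nonneg _) (lay0 v hv' l e)
    have h3 := hup v hv' l
    linarith
  -- classes
  obtain ⟨f, hf⟩ : ∃ f : ℕ × ℕ → Fin 3 × Fin (J + 1) → ℕ, ∀ v l (e : Fin (J + 1)),
      f v (l, e) = if (e : ℕ) = 0 then ⌊Real.logb X (tp J (coord v l)) / δ⌋₊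
        else ⌈Real.logb X (lay (coord v l) e) / δ⌉₊ :=
    ⟨fun v i => if (i.2 : ℕ) = 0 then ⌊Real.logb X (tp J (coord v i.1)) / δ⌋₊
        else ⌈Real.logb X (lay (coord v i.1) i.2) / δ⌉₊, fun _ _ _ => rfl⟩
  have hfM : ∀ v ∈ F, ∀ i, f v i ≤ M := by
    rintro v hv' ⟨l, e⟩
    rw [hf, hM]
    split_ifs with he
    · refine (Nat.floor_le_ceil _).trans (Nat.ceil_le_ceil ?_)
      have := htp1 v hv' l
      gcongr
      linarith
    · apply Nat.ceil_le_ceil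
      have := hlay1 v hv' l e (Finset.mem_Icc.2 ⟨Nat.one_le_iff_ne_zero.2 he, by omega⟩)
      gcongr
      linarith
  obtain ⟨B, hB⟩ : ∃ B : ℝ, B = T + 20 * (κ0 + 1) * η + 10 * η := ⟨_, rfl⟩
  have key := fib F f M (D * X ^ B) hfM ?_
  · have h1 : X ^ B ≤ X ^ (T + ε) := by
      refine Real.rpow_le_rpow_of_exponent_le hX ?_
      rw [hB]
      nlinarith
    calc (F.card : ℝ) ≤ ((M : ℝ) + 1) ^ N * (D * X ^ B) := by
          rw [hN]; exact key
      _ = ((M : ℝ) + 1) ^ N * D * X ^ B := by ring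
      _ ≤ ((M : ℝ) + 1) ^ N * D * X ^ (T + ε) :=
          mul_le_mul_of_nonneg_left h1 (mul_nonneg (by positivity) (by linarith))
      _ ≤ (((M : ℝ) + 1) ^ N * D + ((⌊X0 ^ κ⌋₊ : ℝ) + 1) ^ 2) * X ^ (T + ε) := by
          gcongr
          exact le_add_of_nonneg_right (by positivity)
  -- one class
  intro c
  rcases (F.filter (fun v => f v = c)).eq_empty_or_nonempty with hem | ⟨w, hw⟩
  · rw [hem]
    simp only [Finset.card_empty, Nat.cast_zero]
    exact mul_nonneg (by linarith) (Real.rpow_pos_of_pos Xp _).le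
  obtain ⟨hwF, hwc⟩ := Finset.mem_filter.1 hw
  have heq : ∀ v ∈ F.filter (fun v => f v = c), f v = f w := fun v hv' => by
    rw [(Finset.mem_filter.1 hv').2, hwc]
  obtain ⟨p, hp⟩ : ∃ p : Fin 3 → ℕ → ℝ, ∀ l e, p l e = if e ∈ Icc 1 J then
      δ * (⌈Real.logb X (lay (coord w l) e) / δ⌉₊ : ℝ) else 0 := ⟨_, fun _ _ => rfl⟩
  obtain ⟨t, ht⟩ : ∃ t : Fin 3 → ℝ, ∀ l, t l = δ * (⌊Real.logb X (tp J (coord w l)) / δ⌋₊ : ℝ) :=
    ⟨_, fun _ => rfl⟩
  have hpe : ∀ v ∈ F.filter (fun v => f v = c), ∀ l, ∀ e ∈ Icc 1 J,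
      Real.logb X (lay (coord v l) e) ≤ p l e ∧ p l e ≤ Real.logb X (lay (coord v l) e) + δ := by
    intro v hv' l e he
    have hvF := (Finset.mem_filter.1 hv').1
    obtain ⟨he1, he2⟩ := Finset.mem_Icc.1 he
    have h1 := congrFun (heq v hv') (l, ⟨e, by omega⟩)
    rw [hf, hf, if_neg (by show e ≠ 0; omega), if_neg (by show e ≠ 0; omega)] at h1
    change ⌈Real.logb X (lay (coord v l) e) / δ⌉₊ = ⌈Real.logb X (lay (coord w l) e) / δ⌉₊ at h1
    rw [hp, if_pos he, ← h1]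
    have h2 := Nat.le_ceil (Real.logb X (lay (coord v l) e) / δ)
    have h3 := Nat.ceil_lt_add_one (div_nonneg (lay0 v hvF l e) δ0.le)
    rw [div_le_iff₀ δ0] at h2
    constructor
    · linarith
    · have h4 : δ * (⌈Real.logb X (lay (coord v l) e) / δ⌉₊ : ℝ) ≤
          δ * (Real.logb X (lay (coord v l) e) / δ + 1) := by gcongr
      rw [mul_add, mul_div_cancel₀ _ δ0.ne', mul_one] at h4
      exact h4
  have hte : ∀ v ∈ F.filter (fun v => f v = c), ∀ l,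
      t l ≤ Real.logb X (tp J (coord v l)) ∧ Real.logb X (tp J (coord v l)) ≤ t l + δ := by
    intro v hv' l
    have h1 := congrFun (heq v hv') (l, ⟨0, by omega⟩)
    rw [hf, hf, if_pos rfl, if_pos rfl] at h1
    rw [ht, ← h1]
    have h2 := Nat.floor_le (div_nonneg (tp0 v l) δ0.le)
    have h3 := Nat.lt_floor_add_one (Real.logb X (tp J (coord v l)) / δ)
    rw [le_div_iff₀ δ0] at h2
    rw [div_lt_iff₀ δ0] at h3
    constructor
    · linarith
    · linarith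
  have hp2 : ∀ l e, 0 ≤ p l e ∧ p l e ≤ 2 := by
    intro l e
    by_cases he : e ∈ Icc 1 J
    · have h1 := hpe w hw l e he
      have h2 := lay0 w hwF l e
      have h3 := hlay1 w hwF l e he
      exact ⟨by linarith, by linarith⟩
    · rw [hp, if_neg he]
      exact ⟨le_rfl, by norm_num⟩
  have ht0 : ∀ l, 0 ≤ t l := by
    intro l
    rw [ht]
    positivity
  -- comparison of the gains
  have hlow : ∀ v ∈ F.filter (fun v => f v = c), ∀ l,
      Real.logb X (coord v l) ≤ t l + ∑ e ∈ Icc 1 J, (e : ℝ) * p l e + δ := by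
    intro v hv' l
    rw [hcl v (Finset.mem_filter.1 hv').1 l]
    have h5 : ∑ e ∈ Icc 1 J, (e : ℝ) * Real.logb X (lay (coord v l) e) ≤
        ∑ e ∈ Icc 1 J, (e : ℝ) * p l e :=
      Finset.sum_le_sum fun e he => mul_le_mul_of_nonneg_left (hpe v hv' l e he).1 (Nat.cast_nonneg _)
    have h6 := (hte v hv' l).2
    linarith
  have hhigh : ∀ v ∈ F.filter (fun v => f v = c), ∀ (l : Fin 3) (K : Finset ℕ), K ⊆ Icc 1 J →
      t l + ∑ e ∈ K, (e : ℝ) * p l e ≤ Real.logb X (tp J (coord v l)) +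
        ∑ e ∈ K, (e : ℝ) * Real.logb X (lay (coord v l) e) + η / 4 := by
    intro v hv' i K hK
    have h2 := (hte v hv' i).1
    have h3 : ∑ e ∈ K, (e : ℝ) * p i e ≤
        ∑ e ∈ K, (e : ℝ) * Real.logb X (lay (coord v i) e) + δ * (J : ℝ) ^ 2 := by
      calc ∑ e ∈ K, (e : ℝ) * p i e ≤
          ∑ e ∈ K, ((e : ℝ) * Real.logb X (lay (coord v i) e) + J * δ) := by
            refine Finset.sum_le_sum fun e he => ?_
            have h4 := (hpe v hv' i e (hK he)).2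
            have h5 : (e : ℝ) ≤ J := by exact_mod_cast (Finset.mem_Icc.1 (hK he)).2
            have h6 : (0 : ℝ) ≤ e := Nat.cast_nonneg _
            nlinarith
        _ = ∑ e ∈ K, (e : ℝ) * Real.logb X (lay (coord v i) e) + K.card * (J * δ) := by
            rw [Finset.sum_add_distrib, Finset.sum_const, nsmul_eq_mul]
        _ ≤ ∑ e ∈ K, (e : ℝ) * Real.logb X (lay (coord v i) e) + J * (J * δ) := by
            have h7 : (K.card : ℝ) ≤ J := by
              have := Finset.card_le_card hK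
              rw [Nat.card_Icc] at this
              exact_mod_cast (by omega : K.card ≤ J)
            gcongr
        _ = _ := by ring
    linarith
  have hG1 : ∀ l, t l + ∑ e ∈ Icc 1 J, (e : ℝ) * p l e ≤ m + η := by
    intro l
    have h1 := hhigh w hw l (Icc 1 J) subset_rfl
    rw [← hcl w hwF l] at h1
    have h2 := hup w hwF l
    linarith
  have hG2 : ∀ l, a ≠ l → m - η ≤ t l + ∑ e ∈ Icc 1 J, (e : ℝ) * p l e := by
    intro l hal
    have h1 := hlow w hw l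
    have h2 := hlo w hwF l hal
    linarith
  have hs1 : ∑ l, ∑ e ∈ Icc 1 J, p l e ≤ 1 + η := by
    calc ∑ l, ∑ e ∈ Icc 1 J, p l e ≤ ∑ l, ∑ e ∈ Icc 1 J, (Real.logb X (lay (coord w l) e) + δ) :=
          Finset.sum_le_sum fun l _ => Finset.sum_le_sum fun e he => (hpe w hw l e he).2
      _ = ∑ l, ∑ e ∈ Icc 1 J, Real.logb X (lay (coord w l) e) + 3 * J * δ := by
          simp only [Finset.sum_add_distrib, Finset.sum_const, Nat.card_Icc, Finset.card_univ,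
            Fintype.card_fin, nsmul_eq_mul]
          push_cast
          ring_nf
      _ ≤ 1 + η := by
          have := hsum w hwF
          linarith
  have hcla : Cla J κ X η m p t a (F.filter (fun v => f v = c)) := by
    intro v hv'
    have hvF := (Finset.mem_filter.1 hv').1
    refine ⟨(hv v hvF).1, (hv v hvF).2.2, fun l => ⟨?_, fun e he => ?_⟩, fun i K hK => ?_,
      fun k hak => ?_⟩
    · have h1 : ((rad (tp J (coord v l)) : ℝ)) ^ (J + 1) ≤ (X ^ η) ^ (J + 1) := by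
        have h2 : ((rad (tp J (coord v l)) ^ (J + 1) : ℕ) : ℝ) ≤ X ^ κ := by
          refine le_trans ?_ (hc v hvF)
          exact_mod_cast le_trans (hL J (coord v l) (coord_pos (hv v hvF).1 l)).2.1 (coord_le v l)
        rw [← Real.rpow_natCast (X ^ η), ← Real.rpow_mul Xp.le]
        push_cast at h2 ⊢
        exact h2.trans (Real.rpow_le_rpow_of_exponent_le hX Jκ)
      exact le_of_pow_le_pow_left₀ (by omega) (by positivity) h1
    · have h1 := (hpe v hv' l e he).1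
      rwa [Real.logb_le_iff_le_rpow X1 (laypos v hvF l e)] at h1
    · have kpp : (0 : ℝ) < kp J K (coord v i) := by
        unfold kp
        push_cast
        exact mul_pos (tppos v i) (Finset.prod_pos fun e _ => pow_pos (laypos v hvF i e) _)
      rw [← Real.le_logb_iff_rpow_le X1 kpp]
      refine max_le (Real.logb_nonneg X1 ?_) ?_
      · have : 0 < kp J K (coord v i) := by exact_mod_cast kpp
        exact_mod_cast this
      · rw [hkp v hvF i K]
        have := hhigh v hv' i K hK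
        linarith
    · rcases le_total 0 (m - (t a + ∑ e ∈ Icc 1 J, (e : ℝ) * p a e) - 2 * η) with h0 | h0
      · rw [max_eq_right h0]
        have h1 := hlow v hv' a
        have h2 := hlo v hvF k hak
        have h3 : Real.logb X (coord v a) + (m - (t a + ∑ e ∈ Icc 1 J, (e : ℝ) * p a e) - 2 * η) ≤
            Real.logb X (coord v k) := by linarith
        rw [Real.le_logb_iff_rpow_le X1 (cpos v hvF k), Real.rpow_add Xp,
          Real.rpow_logb Xp X1.ne' (cpos v hvF a)] at h3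
        exact h3
      · rw [max_eq_left h0, Real.rpow_zero, mul_one]
        exact_mod_cast (hv0 v hvF).2.2.2.2 k
  obtain ⟨Fc, hFc⟩ : ∃ Fc : Finset (ℕ × ℕ), Fc = F.filter (fun v => f v = c) := ⟨_, rfl⟩
  rw [← hFc] at hcla ⊢
  have mono : ∀ C' : ℝ, 1 ≤ C' → C' ≤ D → (Fc.card : ℝ) ≤ C' * X ^ (T + 20 * (κ0 + 1) * η + 10 * η) →
      (Fc.card : ℝ) ≤ D * X ^ B := by
    intro C' _ h1 h2
    rw [hB]
    exact h2.trans (mul_le_mul_of_nonneg_right h1 (Real.rpow_pos_of_pos Xp _).le)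
  have hht : ∀ v ∈ Fc, X ^ m ≤ ((v.1 + v.2 : ℕ) : ℝ) := by
    intro v hv'
    rw [hFc] at hv'
    have hvF := (Finset.mem_filter.1 hv').1
    have h1 := (hv0 v hvF).2.2.1
    unfold hh at h1
    have h0 : (0 : ℝ) < ((v.1 + v.2 : ℕ) : ℝ) := by
      exact_mod_cast coord_pos (hv v hvF).1 2
    rw [Real.rpow_def_of_pos Xp, mul_comm (Real.log X), ← Real.exp_log h0]
    exact Real.exp_le_exp.2 h1
  have hGk : ∀ l, t l + ∑ e ∈ Icc 1 J, (e : ℝ) * p l e ≤ κ := fun l => by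
    have := hG1 l
    linarith
  have halt := LDY65.chv3 hU hT1 hT2 hCHT J κ0 m η p t a J5 hκ0 hm1 hm2 η0.le η1 (fun l e => (hp2 l e).1) ht0 hs1
    (fun i hi => ⟨hG2 i hi.symm, hG1 i⟩) (hG1 a)
  rw [← hTd] at halt
  rcases halt with h | h | h | h | h | h | h
  · exact mono C1 c1 (by linarith) (H1 X m _ Fc p t a hX hp2 hcla h)
  · exact mono C2 c2 (by linarith) (H2 X m _ Fc p t a hX hp2 hcla h)
  · exact mono C3 c3 (by linarith) (H3 X m _ Fc p t a hX hp2 ht0 hGk hcla h)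
  · exact mono C4 c4 (by linarith) (H4 X m _ Fc p t a hX hp2 hcla h)
  · exact mono C5 c5 (by linarith) (H5 X m _ Fc p t a hX ha2 hp2 hcla h)
  · exact mono C6 c6 (by linarith) (H6 X m _ Fc p t a hX hp2 ht0 hGk hcla h)
  · exact mono C7 c7 (by linarith) (H7 X m _ Fc p t a hX (by linarith) hp2 hcla hht h)

end Pool.LDV3
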