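import Pool.Agent.H98.KON.Kane
import Pool.Agent.H72.BL.RNX

/-!
# LDV3: the choice of the tool with arbitrary weights in the rounding (helper72's `VBi`)

`Alt3` is `Pool.LDV2.Alt2` with `Phi4` replaced by `2 x - V`, `V` any possible gain `VBi`.  A tree for
`CHT3 T` gives `Pool.LDV2.WB T` (file `LDY.lean`).
-/

set_option autoImplicit false

namespace Pool.LDV3

open Finset Pool.Agent.H98.ABCR Pool.SHA Pool.BL Pool.LDV Pool.LDV2 Pool.BL72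

/-- one of the seven tools gives the exponent `T` (`m` = exponent of the height, `a` = index of the
smallest coordinate) -/
def Alt3 (J : ℕ) (T m : ℝ) (p : Fin 3 → ℕ → ℝ) (t : Fin 3 → ℝ) (a : Fin 3) : Prop :=
  (∃ j k, j ≠ k ∧ ∑ e ∈ Icc 1 J, p j e + ∑ e ∈ Icc 1 J, p k e ≤ T) ∨
  (∃ (i j k : Fin 3) (e f : ℕ), i ≠ j ∧ i ≠ k ∧ j ≠ k ∧ e ∈ Icc 2 J ∧ f ∈ Icc 2 J ∧
    (∑ n ∈ Icc 1 J, p i n) / 2 + (∑ n ∈ Icc 1 J, p j n - p j e / 2) +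
      (∑ n ∈ Icc 1 J, p k n - p k f / 2) ≤ T) ∨
  (∃ (i j k : Fin 3) (K : Finset ℕ) (V W : ℝ), i ≠ j ∧ i ≠ k ∧ j ≠ k ∧ K ⊆ Icc 1 J ∧
    VBi J (p j) (t i + ∑ e ∈ K, (e : ℝ) * p i e) V ∧
    VBi J (p k) (t i + ∑ e ∈ K, (e : ℝ) * p i e) W ∧
    ∑ e ∈ K, p i e + (∑ e ∈ Icc 1 J, p j e - V / 2) + (∑ e ∈ Icc 1 J, p k e - W / 2) ≤ T) ∨
  (∃ (i j k : Fin 3) (K : Finset ℕ) (e : ℕ), i ≠ j ∧ i ≠ k ∧ j ≠ k ∧ K ⊆ Icc 1 J ∧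
    e ∈ Icc 1 J ∧ ∑ n ∈ K, p i n + (∑ n ∈ Icc 1 J, p j n - p j e) +
      (∑ n ∈ Icc 1 J, p k n - p k e) +
      max 0 (p j e + p k e - (t i + ∑ n ∈ K, (n : ℝ) * p i n)) ≤ T) ∨
  (∃ (k l : Fin 3) (e : ℕ), a ≠ k ∧ a ≠ l ∧ k ≠ l ∧ e ∈ Icc 1 J ∧
    ∑ n ∈ Icc 1 J, p k n + ∑ n ∈ Icc 1 J, p l n -
      min (p l e) (m - (t a + ∑ n ∈ Icc 1 J, (n : ℝ) * p a n)) ≤ T) ∨
  (∃ (i j k : Fin 3) (E K : Finset ℕ) (d : ℕ) (V : ℝ), i ≠ j ∧ i ≠ k ∧ j ≠ k ∧ 2 ≤ d ∧ d ≤ J ∧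
    E ⊆ Icc 1 J ∧ K ⊆ Icc 1 J ∧ Disjoint E K ∧ (∀ e ∈ E, d ∣ e) ∧
    VBi J (p j) (t i + ∑ e ∈ K, (e : ℝ) * p i e) V ∧
    ∑ e ∈ K, p i e + ∑ e ∈ Icc 1 J, p k e ≤ T ∧
    (∑ e ∈ Icc 1 J, p i e - ∑ e ∈ E, p i e) + (∑ e ∈ Icc 1 J, p j e - V / 2) +
      (∑ e ∈ Icc 1 J, p k e) / 2 ≤ T) ∨
  (∑ l, (∑ e ∈ Icc 1 J, p l e - p l 2)) + max 0 (p 0 2 + p 1 2 + p 2 2 - m) ≤ T

/-- the choice lemma for heights `≥ X ^ T` -/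
def CHT3 (T : ℝ) : Prop := ∀ (J : ℕ) (m : ℝ) (p : Fin 3 → ℕ → ℝ) (t : Fin 3 → ℝ) (a : Fin 3),
  5 ≤ J → T ≤ m → (∀ l e, 0 ≤ p l e) → (∀ l, 0 ≤ t l) → ∑ l, ∑ e ∈ Icc 1 J, p l e ≤ 1 →
  (∀ i, i ≠ a → t i + ∑ e ∈ Icc 1 J, (e : ℝ) * p i e = m) →
  t a + ∑ e ∈ Icc 1 J, (e : ℝ) * p a e ≤ m → Alt3 J T m p t a

theorem alt3_mono {J : ℕ} {T T' m : ℝ} {p : Fin 3 → ℕ → ℝ} {t : Fin 3 → ℝ} {a : Fin 3}
    (hT : T ≤ T') (h : Alt3 J T m p t a) : Alt3 J T' m p t a := by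
  rcases h with ⟨j, k, hjk, hle⟩ | ⟨i, j, k, e, f, h1, h2, h3, h4, h5, hle⟩ |
    ⟨i, j, k, K, V, W, h1, h2, h3, h4, h5, h6, hle⟩ | ⟨i, j, k, K, e, h1, h2, h3, h4, h5, hle⟩ |
    ⟨k, l, e, h1, h2, h3, h4, hle⟩ |
    ⟨i, j, k, E, K, d, V, h1, h2, h3, h4, h5, h6, h7, h8, h9, h10, hl1, hl2⟩ | hle
  · exact Or.inl ⟨j, k, hjk, hle.trans hT⟩
  · exact Or.inr (Or.inl ⟨i, j, k, e, f, h1, h2, h3, h4, h5, hle.trans hT⟩)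
  · exact Or.inr (Or.inr (Or.inl ⟨i, j, k, K, V, W, h1, h2, h3, h4, h5, h6, hle.trans hT⟩))
  · exact Or.inr (Or.inr (Or.inr (Or.inl ⟨i, j, k, K, e, h1, h2, h3, h4, h5, hle.trans hT⟩)))
  · exact Or.inr (Or.inr (Or.inr (Or.inr (Or.inl ⟨k, l, e, h1, h2, h3, h4, hle.trans hT⟩))))
  · exact Or.inr (Or.inr (Or.inr (Or.inr (Or.inr (Or.inl
      ⟨i, j, k, E, K, d, V, h1, h2, h3, h4, h5, h6, h7, h8, h9, h10, hl1.trans hT,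
        hl2.trans hT⟩)))))
  · exact Or.inr (Or.inr (Or.inr (Or.inr (Or.inr (Or.inr (hle.trans hT))))))

/-- the old rounding is a special case -/
theorem vbi_phi {J : ℕ} {p : ℕ → ℝ} {g : ℝ} (hp : ∀ e, 0 ≤ p e) (hg : 0 ≤ g) :
    VBi J p g (2 * (∑ e ∈ Icc 1 J, p e) - Phi4 (∑ e ∈ Icc 1 J, p e) g) := by
  have h := rnx_thm J 0 ∅ p g 1 (fun _ _ => 0) hp hg zero_le_one (Finset.empty_subset _)
    (fun _ _ => le_rfl) (fun e he => by simp at he) (by simp)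
  rw [Finset.sum_empty, zero_add, one_mul, Finset.sdiff_empty] at h
  refine vbi_mono h (fun _ => le_rfl) le_rfl ?_
  generalize ∑ e ∈ Icc 1 J, p e = x
  unfold Vq Phi4
  have h1 := le_max_left x (max (27 * x / 20 - 7 * g / 40)
    (max (73 * x / 40 - 13 * g / 20) (2 * x - g)))
  have h2 := le_max_right x (max (27 * x / 20 - 7 * g / 40)
    (max (73 * x / 40 - 13 * g / 20) (2 * x - g)))
  have h3 := le_max_left (27 * x / 20 - 7 * g / 40) (max (73 * x / 40 - 13 * g / 20) (2 * x - g))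
  have h4 := le_max_right (27 * x / 20 - 7 * g / 40) (max (73 * x / 40 - 13 * g / 20) (2 * x - g))
  have h5 := le_max_left (73 * x / 40 - 13 * g / 20) (2 * x - g)
  have h6 := le_max_right (73 * x / 40 - 13 * g / 20) (2 * x - g)
  refine le_min ?_ (le_min ?_ (le_min ?_ ?_)) <;> linarith

theorem alt3_of_alt2 {J : ℕ} {T m : ℝ} {p : Fin 3 → ℕ → ℝ} {t : Fin 3 → ℝ} {a : Fin 3}
    (hp : ∀ l e, 0 ≤ p l e) (ht : ∀ l, 0 ≤ t l) (h : Alt2 J T m p t a) : Alt3 J T m p t a := by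
  have hg : ∀ (i : Fin 3) (K : Finset ℕ), 0 ≤ t i + ∑ e ∈ K, (e : ℝ) * p i e := fun i K =>
    add_nonneg (ht i) (Finset.sum_nonneg fun e _ => mul_nonneg (Nat.cast_nonneg _) (hp i e))
  rcases h with h | h | ⟨i, j, k, K, h1, h2, h3, h4, hle⟩ | h | h |
    ⟨i, j, k, E, K, d, h1, h2, h3, h4, h5, h6, h7, h8, h9, hl1, hl2⟩ | h
  · exact Or.inl h
  · exact Or.inr (Or.inl h)
  · refine Or.inr (Or.inr (Or.inl ⟨i, j, k, K, _, _, h1, h2, h3, h4,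
      vbi_phi (hp j) (hg i K), vbi_phi (hp k) (hg i K), ?_⟩))
    linarith
  · exact Or.inr (Or.inr (Or.inr (Or.inl h)))
  · exact Or.inr (Or.inr (Or.inr (Or.inr (Or.inl h))))
  · refine Or.inr (Or.inr (Or.inr (Or.inr (Or.inr (Or.inl
      ⟨i, j, k, E, K, d, _, h1, h2, h3, h4, h5, h6, h7, h8, h9, vbi_phi (hp j) (hg i K),
        hl1, ?_⟩)))))
    linarith
  · exact Or.inr (Or.inr (Or.inr (Or.inr (Or.inr (Or.inr h)))))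

end Pool.LDV3
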